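import Pool.Agent.TH235.PP.Quant

/-!
Circuits of arbitrary local operators, with boundedly many gates at each position, map PEPS to PEPS.
-/

set_option autoImplicit false
set_option linter.unusedSectionVars false

open scoped BigOperators Matrix
open Finset Pool.Agent.TH235.PP

namespace Pool.Agent.U753.PE

/-- `K` is a circuit on the `L × L` torus with `T` gates at every position: for every site `u` and
every `j < T` there is one gate, an ARBITRARY operator (not necessarily unitary, for instance the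
identity) on the `r × r` box at `u`, and the gates are applied one after the other in an ARBITRARY
order `e`. -/
def IsCircuit {n L : ℕ} [NeZero L] (T r : ℕ) (K : TorOp n L) : Prop :=
  ∃ (m : ℕ) (e : Fin m ≃ Site L × Fin T) (G : Site L → Fin T → BoxOp n r),
    K = (List.ofFn fun i => term (G (e i).1 (e i).2) (e i).1).prod

section circ

variable {n L R' T : ℕ} [NeZero L]

/-- labels of the gates of one site -/
abbrev GLb (n r T : ℕ) : Type := Fin T → Lm n r

/-- the operator at the site `v` -/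
noncomputable def Oc {m : ℕ} (e : Fin m ≃ Site L × Fin T) (g : Site L → GLb n (R' + 1) T)
    (v : Site L) : Matrix (Fin n) (Fin n) ℂ :=
  op fun i => loc (e i).1 (g (e i).1 (e i).2).1 (g (e i).1 (e i).2).2 v

lemma Oc_congr {m : ℕ} (e : Fin m ≃ Site L × Fin T) (g g' : Site L → GLb n (R' + 1) T) (v : Site L)
    (hgg : ∀ u, ∀ x : Fin (R' + 1) × Fin (R' + 1), sh u x = v → g u = g' u) :
    Oc e g v = Oc e g' v := by
  unfold Oc
  congr 1
  funext i
  by_cases hv : ∃ x : Fin (R' + 1) × Fin (R' + 1), sh (e i).1 x = v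
  · obtain ⟨x, hx⟩ := hv
    rw [hgg (e i).1 x hx]
  · push Not at hv
    rw [loc_out _ _ _ v hv, loc_out _ _ _ v hv]

lemma circ_eq {m : ℕ} (e : Fin m ≃ Site L × Fin T) (G : Site L → Fin T → BoxOp n (R' + 1)) :
    op (fun i => term (G (e i).1 (e i).2) (e i).1) =
      ∑ g : Site L → GLb n (R' + 1) T, (∏ u, ∏ j, G u j (g u j).1 (g u j).2) • tp (Oc e g) := by
  classical
  have h1 : ∀ i : Fin m, term (G (e i).1 (e i).2) (e i).1 = ∑ pq : Lm n (R' + 1),
      G (e i).1 (e i).2 pq.1 pq.2 • tp (loc (e i).1 pq.1 pq.2) := fun i => term_eq _ _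
  simp only [h1]
  rw [op_sum (fun (i : Fin m) (pq : Lm n (R' + 1)) =>
      G (e i).1 (e i).2 pq.1 pq.2 • tp (loc (e i).1 pq.1 pq.2))]
  let E : (Site L → GLb n (R' + 1) T) ≃ (Fin m → Lm n (R' + 1)) :=
    (Equiv.curry (Site L) (Fin T) (Lm n (R' + 1))).symm.trans (Equiv.arrowCongr e.symm (Equiv.refl _))
  rw [← E.sum_comp]
  refine Finset.sum_congr rfl fun g _ => ?_
  have hE : ∀ i, E g i = g (e i).1 (e i).2 := fun i => rfl
  simp only [hE]
  rw [op_smul, tp_op]
  congr 1
  rw [← Fintype.prod_prod_type', ← e.prod_comp]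

open Classical in
/-- circuits map tensor network vectors to tensor network vectors -/
lemma circ_apply {K : Type*} [Fintype K] (A0 : Site L → Fin n → K → K → K → K → ℂ) {m : ℕ}
    (e : Fin m ≃ Site L × Fin T) (G : Site L → Fin T → BoxOp n (R' + 1)) (hn : 0 < n) :
    ∃ A : Site L → Fin n → (K × (Fin (R' + 1) × Fin (R' + 1) → GLb n (R' + 1) T)) →
      (K × (Fin (R' + 1) × Fin (R' + 1) → GLb n (R' + 1) T)) →
      (K × (Fin (R' + 1) × Fin (R' + 1) → GLb n (R' + 1) T)) →
      (K × (Fin (R' + 1) × Fin (R' + 1) → GLb n (R' + 1) T)) → ℂ,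
      (op (fun i => term (G (e i).1 (e i).2) (e i).1)).mulVec (contract A0) = contract A := by
  haveI : Nonempty (Fin n) := ⟨⟨0, hn⟩⟩
  set f : Site L → Fin n → (Fin (R' + 1) × Fin (R' + 1) → GLb n (R' + 1) T) →
      K → K → K → K → ℂ := fun v a' w l r' dn up =>
    (∏ j, G v j (w (0, 0) j).1 (w (0, 0) j).2) *
      ∑ a, Oc e (ext v w) v a' a * A0 v a l r' dn up with hf
  refine ⟨_, Eq.trans ?_ (peps_core f).symm⟩
  funext s
  have hfw : ∀ (g : Site L → GLb n (R' + 1) T) (v : Site L) (a' : Fin n) (l r' dn up : K),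
      f v a' (win g v) l r' dn up =
        (∏ j, G v j (g v j).1 (g v j).2) * ∑ a, Oc e g v a' a * A0 v a l r' dn up := by
    intro g v a' l r' dn up
    simp only [hf]
    rw [win_zero]
    have : Oc e (ext v (win (R' := R') g v)) v = Oc e g v := by
      apply Oc_congr
      intro u x hx
      exact ext_win g v u ⟨x, hx⟩
    rw [this]
  rw [circ_eq]
  unfold Matrix.mulVec dotProduct
  simp only [Matrix.sum_apply, Matrix.smul_apply, smul_eq_mul, Finset.sum_mul]
  rw [Finset.sum_comm]
  refine Finset.sum_congr rfl fun g _ => ?_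
  unfold contract
  simp only [Finset.mul_sum]
  rw [Finset.sum_comm]
  refine Finset.sum_congr rfl fun h0 _ => ?_
  rw [Finset.sum_comm]
  refine Finset.sum_congr rfl fun v0 _ => ?_
  simp only [hfw]
  rw [Finset.prod_mul_distrib, Finset.prod_univ_sum, Fintype.piFinset_univ, Finset.mul_sum]
  refine Finset.sum_congr rfl fun x _ => ?_
  unfold tp
  rw [Finset.prod_mul_distrib]
  ring

/-- **Circuits and bond dimension.** A circuit with `T` gates on `r × r` boxes at every position
multiplies the bond dimension by at most `n ^ (2 T r⁴)`, `n` the local dimension. -/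
theorem circ_peps {r D : ℕ} (hr : 1 ≤ r) (hn : 0 < n) {K : TorOp n L} (hK : IsCircuit T r K)
    {φ : (Site L → Fin n) → ℂ} (hφ : IsPEPS D φ) : IsPEPS (D * n ^ (2 * T * r ^ 4)) (K *ᵥ φ) := by
  classical
  obtain ⟨R', rfl⟩ : ∃ R', r = R' + 1 := ⟨r - 1, by omega⟩
  obtain ⟨m, e, G, rfl⟩ := hK
  obtain ⟨A0, rfl⟩ := hφ
  obtain ⟨A, hA⟩ := circ_apply A0 e G hn
  have h1 : ((List.ofFn fun i => term (G (e i).1 (e i).2) (e i).1).prod *ᵥ contract A0) =
      contract A := hA
  rw [h1]
  have h2 := isPEPS_contract A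
  have h3 : Fintype.card (Fin D × (Fin (R' + 1) × Fin (R' + 1) → GLb n (R' + 1) T)) =
      D * n ^ (2 * T * (R' + 1) ^ 4) := by
    simp only [Fintype.card_prod, Fintype.card_fin, Fintype.card_fun]
    congr 1
    rw [← pow_two, ← pow_mul, ← pow_mul, ← pow_mul]
    congr 1
    ring
  rwa [h3] at h2

end circ

end Pool.Agent.U753.PE
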