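import Pool.Agent.U753.PE.Real
import Pool.Agent.Results.MP_953b23_mp.OverlapBoosting

/-!
Families of vectors and their doubles.
-/

set_option autoImplicit false
set_option linter.unusedSectionVars false

open scoped BigOperators Matrix
open Finset Pool.Agent.TH235.PP Pool.Agent.Results.MP_953b23_mp.OverlapBoosting

namespace Pool.Agent.U753.PE

section peps

variable {n L : ℕ} [NeZero L]

/-- one-site operators preserve the bond dimension -/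
lemma tp_peps (w : Matrix (Fin n) (Fin n) ℂ) {D : ℕ} {φ : (Site L → Fin n) → ℂ} (h : IsPEPS D φ) :
    IsPEPS D ((tp fun _ : Site L => w) *ᵥ φ) := by
  classical
  obtain ⟨A, rfl⟩ := h
  refine ⟨fun x i l r dn up => ∑ j, w i j * A x j l r dn up, ?_⟩
  funext s
  unfold Matrix.mulVec dotProduct contract
  simp only [Finset.mul_sum]
  rw [Finset.sum_comm]
  refine Finset.sum_congr rfl fun h0 _ => ?_
  rw [Finset.sum_comm]
  refine Finset.sum_congr rfl fun v0 _ => ?_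
  rw [Finset.prod_univ_sum, Fintype.piFinset_univ]
  refine Finset.sum_congr rfl fun x _ => ?_
  unfold tp
  rw [Finset.prod_mul_distrib]

lemma conj_peps {D : ℕ} {φ : (Site L → Fin n) → ℂ} (h : IsPEPS D φ) :
    IsPEPS D (fun s => (starRingEnd ℂ) (φ s)) := by
  obtain ⟨A, rfl⟩ := h
  refine ⟨fun x i l r dn up => (starRingEnd ℂ) (A x i l r dn up), ?_⟩
  funext s
  unfold contract
  simp only [map_sum, map_prod]

lemma nr_conj {m : Type*} [Fintype m] [DecidableEq m] (x : m → ℂ) :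
    nr (fun s => (starRingEnd ℂ) (x s)) = nr x := by
  have h : nr (fun s => (starRingEnd ℂ) (x s)) ^ 2 = nr x ^ 2 := by
    rw [nr_sq, nr_sq, normSq_conj]
  exact (pow_left_inj₀ (nr_nonneg _) (nr_nonneg _) two_ne_zero).1 h

lemma nr_stack {V : Type*} [Fintype V] [DecidableEq V] {d a : ℕ} (Ψ : (V → Fin d) → ℂ)
    (χ : (V → Fin a) → ℂ) : nr (stack Ψ χ) = nr Ψ * nr χ := by
  have h : nr (stack Ψ χ) ^ 2 = (nr Ψ * nr χ) ^ 2 := by
    rw [mul_pow, nr_sq, nr_sq, nr_sq, normSq_stack]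
  exact (pow_left_inj₀ (nr_nonneg _) (mul_nonneg (nr_nonneg _) (nr_nonneg _)) two_ne_zero).1 h

/-- distance of doubles -/
lemma stack_dist {V : Type*} [Fintype V] [DecidableEq V] {d : ℕ} (φ Ψ : (V → Fin d) → ℂ) (δ : ℝ)
    (hδ : δ ≤ 1) (hΨ : nr Ψ = 1) (h : nr (φ - Ψ) ≤ δ) :
    nr (stack φ (fun s => (starRingEnd ℂ) (φ s)) - stack Ψ (fun s => (starRingEnd ℂ) (Ψ s))) ≤
      3 * δ := by
  have e : stack φ (fun s => (starRingEnd ℂ) (φ s)) - stack Ψ (fun s => (starRingEnd ℂ) (Ψ s)) =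
      stack φ (fun s => (starRingEnd ℂ) ((φ - Ψ) s)) +
        stack (φ - Ψ) (fun s => (starRingEnd ℂ) (Ψ s)) := by
    funext s
    simp only [stack, Pi.sub_apply, Pi.add_apply, map_sub]
    ring
  rw [e]
  refine (nr_add _ _).trans ?_
  rw [nr_stack, nr_stack, nr_conj, nr_conj, hΨ, mul_one]
  have h1 : nr φ ≤ 2 := by
    have := nr_add (φ - Ψ) Ψ
    rw [sub_add_cancel, hΨ] at this
    linarith
  have h0 := nr_nonneg (φ - Ψ)
  have h2 : nr φ * nr (φ - Ψ) ≤ 2 * δ := mul_le_mul h1 h h0 (by norm_num)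
  linarith

end peps

/-- The double of a family of vectors: `Ψ ⊗ Ψ̄` in the local basis of the double of an
interaction. -/
noncomputable def dblFam {d : ℕ} (Ψ : ∀ L : ℕ, (Site L → Fin d) → ℂ) :
    ∀ L : ℕ, (Site L → Fin (d * d)) → ℂ := fun L =>
  if h : L = 0 then 0 else haveI : NeZero L := ⟨h⟩; dblV (Ψ L)

lemma dblFam_eq {d : ℕ} (Ψ : ∀ L : ℕ, (Site L → Fin d) → ℂ) (L : ℕ) [NeZero L] :
    dblFam Ψ L = dblV (Ψ L) := by
  unfold dblFam
  rw [dif_neg (NeZero.ne L)]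

theorem dbl_family {d R : ℕ} {h : BoxOp d R} {Δ : ℝ} {Ψ : ∀ L : ℕ, (Site L → Fin d) → ℂ}
    (hF : GappedFamily h Δ Ψ) : GappedFamily (dbl h) Δ (dblFam Ψ) := by
  obtain ⟨L₀, hL₀⟩ := hF.ground
  refine ⟨hF.range_pos, dbl_herm hF.herm, hF.gap_pos, max L₀ R, ?_⟩
  intro L _ hL
  obtain ⟨h1, h2⟩ := hL₀ L ((le_max_left _ _).trans hL)
  rw [dblFam_eq]
  exact ⟨dblV_norm _ h1, dbl_gap ((le_max_right _ _).trans hL) h hF.herm Δ hF.gap_pos _ h1 h2⟩

/-- from the double to the family -/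
theorem down {d : ℕ} {Ψ : ∀ L : ℕ, (Site L → Fin d) → ℂ}
    (hn : ∃ L₀ : ℕ, ∀ (L : ℕ) [NeZero L], L₀ ≤ L → normSq (Ψ L) = 1) {k : ℕ} {C : ℝ} {δ : ℕ → ℝ}
    (h : Approx (dblFam Ψ) k C δ) : Approx Ψ k C δ := by
  obtain ⟨L₁, hL₁⟩ := hn
  obtain ⟨L₀, hL₀⟩ := h
  refine ⟨max L₀ L₁, ?_⟩
  intro L _ hL
  obtain ⟨D, φ, hD, hφ, hd⟩ := hL₀ L ((le_max_left _ _).trans hL)
  have hn1 := hL₁ L ((le_max_right _ _).trans hL)
  rw [dblFam_eq, sqrt_normSq] at hd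
  have hδ : 0 ≤ δ L := (nr_nonneg _).trans hd
  have h1 : nr ((tp fun _ : Site L => WM d) *ᵥ φ - stack (Ψ L) (fun s => (starRingEnd ℂ) (Ψ L s))) ≤
      δ L := by
    have e : (tp fun _ : Site L => WM d) *ᵥ φ - stack (Ψ L) (fun s => (starRingEnd ℂ) (Ψ L s)) =
        (tp fun _ : Site L => WM d) *ᵥ (φ - dblV (Ψ L)) := by
      rw [Matrix.mulVec_sub]
      congr 1
      unfold dblV
      rw [Matrix.mulVec_mulVec, WT_unit', Matrix.one_mulVec]
    rw [e, unit_nr WT_unit]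
    exact hd
  obtain ⟨ψ, hψ, hψd⟩ := inherit hδ (Ψ L) (fun s => (starRingEnd ℂ) (Ψ L s))
    (by rw [normSq_conj]; exact hn1) _ (tp_peps (WM d) hφ) h1
  exact ⟨D, ψ, hD, hψ, by rw [sqrt_normSq]; exact hψd⟩

/-- from the family to the double -/
theorem up {d : ℕ} {Ψ : ∀ L : ℕ, (Site L → Fin d) → ℂ}
    (hn : ∃ L₀ : ℕ, ∀ (L : ℕ) [NeZero L], L₀ ≤ L → normSq (Ψ L) = 1) {k : ℕ} {C c : ℝ} (hc : 0 < c)
    (h : Approx Ψ k C fun L => (L : ℝ) ^ (-(c + 2))) :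
    Approx (dblFam Ψ) k (2 * C) fun L => (L : ℝ) ^ (-c) := by
  obtain ⟨L₁, hL₁⟩ := hn
  obtain ⟨L₀, hL₀⟩ := h
  refine ⟨max 2 (max L₀ L₁), ?_⟩
  intro L _ hL
  have hL2 : 2 ≤ L := (le_max_left _ _).trans hL
  obtain ⟨D, φ, hD, hφ, hd⟩ := hL₀ L (((le_max_left _ _).trans (le_max_right _ _)).trans hL)
  have hn1 := hL₁ L (((le_max_right _ _).trans (le_max_right _ _)).trans hL)
  rw [sqrt_normSq] at hd
  have hL2' : (2 : ℝ) ≤ L := by exact_mod_cast hL2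
  have hL0 : (0 : ℝ) < L := by linarith
  have hpow : (L : ℝ) ^ (-(c + 2)) = (L : ℝ) ^ (-c) * ((L : ℝ) ^ 2)⁻¹ := by
    rw [neg_add, Real.rpow_add hL0, Real.rpow_neg hL0.le 2]
    norm_num
  have hc0 : 0 < (L : ℝ) ^ (-c) := Real.rpow_pos_of_pos hL0 _
  have hc1 : (L : ℝ) ^ (-c) ≤ 1 :=
    Real.rpow_le_one_of_one_le_of_nonpos (by linarith) (by linarith)
  have hinv : ((L : ℝ) ^ 2)⁻¹ ≤ 1 / 4 := by
    rw [← one_div]
    apply one_div_le_one_div_of_le (by norm_num)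
    nlinarith
  have hδ1 : (L : ℝ) ^ (-(c + 2)) ≤ 1 := by
    rw [hpow]
    nlinarith [inv_nonneg.2 (sq_nonneg (L : ℝ))]
  have hdist := stack_dist φ (Ψ L) _ hδ1 (nr_one _ hn1) hd
  refine ⟨D * D, (tp fun _ : Site L => WM d)ᴴ *ᵥ stack φ (fun s => (starRingEnd ℂ) (φ s)),
    ?_, ?_, ?_⟩
  · push_cast
    have h0 : (0 : ℝ) ≤ D := Nat.cast_nonneg D
    calc (D : ℝ) * D ≤ Real.exp (C * Real.log L ^ k) * Real.exp (C * Real.log L ^ k) :=
          mul_le_mul hD hD h0 (Real.exp_pos _).le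
      _ = Real.exp (2 * C * Real.log L ^ k) := by rw [← Real.exp_add]; congr 1; ring
  · rw [tp_conjT]
    exact tp_peps _ (stack_peps hφ (conj_peps hφ))
  · rw [sqrt_normSq, dblFam_eq]
    have e : (tp fun _ : Site L => WM d)ᴴ *ᵥ stack φ (fun s => (starRingEnd ℂ) (φ s)) -
        dblV (Ψ L) = (tp fun _ : Site L => WM d)ᴴ *ᵥ
          (stack φ (fun s => (starRingEnd ℂ) (φ s)) -
            stack (Ψ L) (fun s => (starRingEnd ℂ) (Ψ L s))) := by
      rw [Matrix.mulVec_sub]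
      rfl
    rw [e, unit_nr (by rw [Matrix.conjTranspose_conjTranspose]; exact WT_unit')]
    refine hdist.trans ?_
    rw [hpow]
    nlinarith

end Pool.Agent.U753.PE
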