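import Pool.Agent.TH235.PP.Quant

/-!
Stacking of two systems on the torus; approximability by PEPS is inherited by tensor factors.
-/

set_option autoImplicit false
set_option linter.unusedSectionVars false

open scoped BigOperators Matrix
open Finset Pool.Agent.TH235.PP

namespace Pool.Agent.U753.PE

/-- first layer -/
def p1 {d a : ℕ} (z : Fin (d * a)) : Fin d := (finProdFinEquiv.symm z).1

/-- second layer -/
def p2 {d a : ℕ} (z : Fin (d * a)) : Fin a := (finProdFinEquiv.symm z).2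

/-- pair of two configurations -/
def pair {V : Type*} {d a : ℕ} (i : V → Fin d) (t : V → Fin a) : V → Fin (d * a) := fun x =>
  finProdFinEquiv (i x, t x)

/-- The tensor product of a vector of a system of local dimension `d` and a vector of a system of
local dimension `a`, as a vector of the stacked system of local dimension `d * a`. -/
def stack {V : Type*} {d a : ℕ} (Ψ : (V → Fin d) → ℂ) (χ : (V → Fin a) → ℂ) :
    (V → Fin (d * a)) → ℂ := fun s => Ψ (fun x => p1 (s x)) * χ (fun x => p2 (s x))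

section
variable {V : Type*} {d a : ℕ}

@[simp] lemma p1_fp (i : Fin d) (j : Fin a) : p1 (finProdFinEquiv (i, j)) = i := by simp [p1]
@[simp] lemma p2_fp (i : Fin d) (j : Fin a) : p2 (finProdFinEquiv (i, j)) = j := by simp [p2]

lemma p1_pair (i : V → Fin d) (t : V → Fin a) : (fun x => p1 (pair i t x)) = i := by
  funext x; simp [pair]

lemma p2_pair (i : V → Fin d) (t : V → Fin a) : (fun x => p2 (pair i t x)) = t := by
  funext x; simp [pair]

lemma pair_p (s : V → Fin (d * a)) : pair (fun x => p1 (s x)) (fun x => p2 (s x)) = s := by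
  funext x
  simp only [pair, p1, p2]
  exact finProdFinEquiv.apply_symm_apply (s x)

/-- configurations of the stacked system are pairs of configurations -/
def pairE (V : Type*) (d a : ℕ) : (V → Fin d) × (V → Fin a) ≃ (V → Fin (d * a)) where
  toFun q := pair q.1 q.2
  invFun s := (fun x => p1 (s x), fun x => p2 (s x))
  left_inv q := by
    obtain ⟨i, t⟩ := q
    simp only [p1_pair, p2_pair]
  right_inv s := pair_p s

lemma stack_pair (Ψ : (V → Fin d) → ℂ) (χ : (V → Fin a) → ℂ) (i : V → Fin d) (t : V → Fin a) :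
    stack Ψ χ (pair i t) = Ψ i * χ t := by
  unfold stack
  rw [p1_pair, p2_pair]

variable [Fintype V] [DecidableEq V]

lemma sum_pairs {M : Type*} [AddCommMonoid M] (F : (V → Fin (d * a)) → M) :
    ∑ s, F s = ∑ t : V → Fin a, ∑ i : V → Fin d, F (pair i t) := by
  rw [Finset.sum_comm, ← Fintype.sum_prod_type', ← Equiv.sum_comp (pairE V d a) F]
  rfl

/-- the component of a vector of the stacked system in which the second layer is in the basis
state `t` -/
def comp (φ : (V → Fin (d * a)) → ℂ) (t : V → Fin a) : (V → Fin d) → ℂ := fun i => φ (pair i t)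

lemma normSq_comp (φ : (V → Fin (d * a)) → ℂ) : ∑ t, normSq (comp φ t) = normSq φ := by
  unfold normSq comp
  rw [sum_pairs]

lemma ip_stack (Ψ : (V → Fin d) → ℂ) (χ : (V → Fin a) → ℂ) (φ : (V → Fin (d * a)) → ℂ) :
    ip (stack Ψ χ) φ = ∑ t, (starRingEnd ℂ) (χ t) * ip Ψ (comp φ t) := by
  unfold ip
  rw [sum_pairs]
  refine Finset.sum_congr rfl fun t _ => ?_
  rw [Finset.mul_sum]
  refine Finset.sum_congr rfl fun i _ => ?_
  rw [stack_pair, map_mul]
  unfold comp
  ring

lemma comp_stack (Ψ : (V → Fin d) → ℂ) (χ : (V → Fin a) → ℂ) (t : V → Fin a) :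
    comp (stack Ψ χ) t = χ t • Ψ := by
  funext i
  unfold comp
  rw [stack_pair, Pi.smul_apply, smul_eq_mul, mul_comm]

lemma comp_sub (φ φ' : (V → Fin (d * a)) → ℂ) (t : V → Fin a) :
    comp (φ - φ') t = comp φ t - comp φ' t := rfl

lemma normSq_stack (Ψ : (V → Fin d) → ℂ) (χ : (V → Fin a) → ℂ) :
    normSq (stack Ψ χ) = normSq Ψ * normSq χ := by
  unfold normSq
  rw [sum_pairs, Finset.sum_mul_sum, Finset.sum_comm]
  refine Finset.sum_congr rfl fun i _ => Finset.sum_congr rfl fun t _ => ?_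
  rw [stack_pair, norm_mul, mul_pow]

end

section peps

variable {d a L : ℕ} [NeZero L]

/-- the components of a PEPS of the stacked system are PEPS of the same bond dimension -/
lemma comp_peps {D : ℕ} {φ : (Site L → Fin (d * a)) → ℂ} (h : IsPEPS D φ) (t : Site L → Fin a) :
    IsPEPS D (comp φ t) := by
  obtain ⟨A, rfl⟩ := h
  exact ⟨fun x i => A x (finProdFinEquiv (i, t x)), rfl⟩

/-- the tensor product of two PEPS -/
lemma stack_peps {D D' : ℕ} {φ : (Site L → Fin d) → ℂ} {φ' : (Site L → Fin a) → ℂ}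
    (h : IsPEPS D φ) (h' : IsPEPS D' φ') : IsPEPS (D * D') (stack φ φ') := by
  obtain ⟨A, rfl⟩ := h
  obtain ⟨A', rfl⟩ := h'
  have e : stack (contract A) (contract A') = contract (K := Fin D × Fin D')
      (fun x z l r dn up => A x (p1 z) l.1 r.1 dn.1 up.1 * A' x (p2 z) l.2 r.2 dn.2 up.2) := by
    funext s
    unfold stack contract
    rw [Finset.sum_mul_sum]
    have h1 : ∀ (F : (Site L → Fin D × Fin D') → ℂ),
        ∑ H, F H = ∑ h : Site L → Fin D, ∑ w : Site L → Fin D', F (fun v => (h v, w v)) :=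
      fun F => sum_pair F
    rw [h1]
    refine Finset.sum_congr rfl fun h0 _ => Finset.sum_congr rfl fun h0' _ => ?_
    rw [h1, Finset.sum_mul_sum]
    refine Finset.sum_congr rfl fun v0 _ => Finset.sum_congr rfl fun v0' _ => ?_
    rw [← Finset.prod_mul_distrib]
  rw [e]
  have := isPEPS_contract (K := Fin D × Fin D')
      (fun x (z : Fin (d * a)) l r dn up => A x (p1 z) l.1 r.1 dn.1 up.1 * A' x (p2 z) l.2 r.2 dn.2 up.2)
  simpa using this

/-- **Approximability is inherited by tensor factors**, without loss. -/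
theorem inherit {D : ℕ} {δ : ℝ} (hδ : 0 ≤ δ) (Ψ : (Site L → Fin d) → ℂ) (χ : (Site L → Fin a) → ℂ)
    (hχ : normSq χ = 1) (φ : (Site L → Fin (d * a)) → ℂ) (h : IsPEPS D φ)
    (hφ : nr (φ - stack Ψ χ) ≤ δ) : ∃ ψ : (Site L → Fin d) → ℂ, IsPEPS D ψ ∧ nr (ψ - Ψ) ≤ δ := by
  classical
  have hsum : ∑ t, normSq (comp φ t - χ t • Ψ) ≤ ∑ t, δ ^ 2 * ‖χ t‖ ^ 2 := by
    have e1 : ∑ t, normSq (comp φ t - χ t • Ψ) = nr (φ - stack Ψ χ) ^ 2 := by
      rw [nr_sq, ← normSq_comp]
      refine Finset.sum_congr rfl fun t _ => ?_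
      rw [comp_sub, comp_stack]
    have e2 : ∑ t, δ ^ 2 * ‖χ t‖ ^ 2 = δ ^ 2 := by
      rw [← Finset.mul_sum]
      have : ∑ t, ‖χ t‖ ^ 2 = 1 := hχ
      rw [this, mul_one]
    rw [e1, e2]
    exact pow_le_pow_left₀ (nr_nonneg _) hφ 2
  have hex : ∃ t, χ t ≠ 0 ∧ normSq (comp φ t - χ t • Ψ) ≤ δ ^ 2 * ‖χ t‖ ^ 2 := by
    by_contra hno
    push Not at hno
    obtain ⟨t0, ht0⟩ : ∃ t, χ t ≠ 0 := by
      by_contra hz
      push Not at hz
      have : normSq χ = 0 := by
        unfold normSq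
        exact Finset.sum_eq_zero fun t _ => by rw [hz t]; simp
      rw [hχ] at this
      exact one_ne_zero this
    have hlt : ∑ t, δ ^ 2 * ‖χ t‖ ^ 2 < ∑ t, normSq (comp φ t - χ t • Ψ) := by
      refine Finset.sum_lt_sum (fun t _ => ?_) ⟨t0, mem_univ _, hno t0 ht0⟩
      by_cases ht : χ t = 0
      · rw [ht]
        have : 0 ≤ normSq (comp φ t - (0 : ℂ) • Ψ) := Finset.sum_nonneg fun _ _ => by positivity
        simpa using this
      · exact (hno t ht).le
    linarith
  obtain ⟨t, ht0, ht⟩ := hex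
  refine ⟨(χ t)⁻¹ • comp φ t, (comp_peps h t).smul _, ?_⟩
  have e : (χ t)⁻¹ • comp φ t - Ψ = (χ t)⁻¹ • (comp φ t - χ t • Ψ) := by
    rw [smul_sub, smul_smul, inv_mul_cancel₀ ht0, one_smul]
  rw [e, nr_smul, norm_inv]
  have hpos : 0 < ‖χ t‖ := norm_pos_iff.2 ht0
  rw [inv_mul_le_iff₀ hpos]
  refine le_of_sq_le_sq ?_ (by positivity)
  rw [nr_sq]
  refine ht.trans (le_of_eq ?_)
  ring

end peps

end Pool.Agent.U753.PE
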