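import Pool.Agent.TH235.PP.Ener
import Pool.Agent.U753.PE.Stack

/-!
The gap of `H ⊗ 1 + 1 ⊗ H̄`.
-/

set_option autoImplicit false
set_option linter.unusedSectionVars false

open scoped BigOperators Matrix
open Finset Pool.Agent.TH235.PP

namespace Pool.Agent.U753.PE

/-- transport of a gapped ground state by an isomorphism of vector spaces -/
lemma gg_transport {m n : Type*} [Fintype m] [Fintype n] {H1 : Matrix m m ℂ} {H2 : Matrix n n ℂ}
    (F : (m → ℂ) ≃ₗ[ℂ] (n → ℂ)) (hF : ∀ φ, F (H1 *ᵥ φ) = H2 *ᵥ F φ) {Δ : ℝ} {ψ : m → ℂ}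
    (h : IsGappedGround H1 Δ ψ) : IsGappedGround H2 Δ (F ψ) := by
  obtain ⟨E, h1, h2, h3⟩ := h
  have hF' : ∀ φ, F.symm (H2 *ᵥ φ) = H1 *ᵥ F.symm φ := by
    intro φ
    apply F.injective
    rw [hF, F.apply_symm_apply, F.apply_symm_apply]
  refine ⟨E, ?_, ?_, ?_⟩
  · have : H2.mulVec (F ψ) = F (H1 *ᵥ ψ) := (hF ψ).symm
    rw [this, h1, map_smul]
  · intro φ hφ
    obtain ⟨c, hc⟩ := h2 (F.symm φ) (by
      have := hF' φ
      rw [← this, hφ, map_smul])
    refine ⟨c, ?_⟩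
    rw [← F.apply_symm_apply φ, hc, map_smul]
  · intro E' φ hφ0 hφ
    refine h3 E' (F.symm φ) ?_ ?_
    · intro h0
      apply hφ0
      rw [← F.apply_symm_apply φ, h0, map_zero]
    · have := hF' φ
      rw [← this, hφ, map_smul]

section dbl

variable {n : Type*} [Fintype n] [DecidableEq n]

/-- `H ⊗ 1 + 1 ⊗ H̄` -/
def H2 (H : Matrix n n ℂ) : Matrix (n × n) (n × n) ℂ := fun p q =>
  (if p.2 = q.2 then H p.1 q.1 else 0) + (if p.1 = q.1 then (starRingEnd ℂ) (H p.2 q.2) else 0)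

lemma H2_mulVec (H : Matrix n n ℂ) (φ : n × n → ℂ) (s t : n) :
    (H2 H *ᵥ φ) (s, t) = (H *ᵥ fun s' => φ (s', t)) s +
      ((fun i j => (starRingEnd ℂ) (H i j)) *ᵥ fun t' => φ (s, t') : n → ℂ) t := by
  unfold Matrix.mulVec dotProduct H2
  rw [Fintype.sum_prod_type]
  simp only [add_mul, Finset.sum_add_distrib, ite_mul, zero_mul]
  congr 1
  · refine Finset.sum_congr rfl fun s' _ => ?_
    rw [Finset.sum_ite_eq]
    simp
  · rw [Finset.sum_comm]
    refine Finset.sum_congr rfl fun t' _ => ?_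
    rw [Finset.sum_ite_eq]
    simp

/-- the vector `Ψ ⊗ Ψ̄` -/
def dv (Ψ : n → ℂ) : n × n → ℂ := fun p => Ψ p.1 * (starRingEnd ℂ) (Ψ p.2)

/-- Pythagoras -/
lemma pyth (Ψ x : n → ℂ) (hΨ : normSq Ψ = 1) :
    normSq (x - (ip Ψ x) • Ψ) = normSq x - ‖ip Ψ x‖ ^ 2 := by
  have h1 : ((normSq (x - (ip Ψ x) • Ψ) : ℝ) : ℂ) = ((normSq x - ‖ip Ψ x‖ ^ 2 : ℝ) : ℂ) := by
    have e : ∀ y : n → ℂ, ((normSq y : ℝ) : ℂ) = ∑ s, (starRingEnd ℂ) (y s) * y s := by
      intro y
      unfold normSq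
      push_cast
      refine Finset.sum_congr rfl fun s _ => ?_
      rw [Complex.conj_mul']
    have e1 : ∑ s, (starRingEnd ℂ) (Ψ s) * Ψ s = 1 := by
      rw [← e, hΨ]; norm_num
    have e2 : ∑ s, (starRingEnd ℂ) (x s) * Ψ s = (starRingEnd ℂ) (ip Ψ x) := by
      unfold ip
      rw [map_sum]
      refine Finset.sum_congr rfl fun s _ => ?_
      rw [map_mul, Complex.conj_conj, mul_comm]
    rw [e]
    push_cast
    rw [e x]
    have e3 : ∀ s, (starRingEnd ℂ) ((x - (ip Ψ x) • Ψ) s) * (x - (ip Ψ x) • Ψ) s =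
        (starRingEnd ℂ) (x s) * x s - (ip Ψ x) * ((starRingEnd ℂ) (x s) * Ψ s) -
        (starRingEnd ℂ) (ip Ψ x) * ((starRingEnd ℂ) (Ψ s) * x s) +
        (starRingEnd ℂ) (ip Ψ x) * (ip Ψ x) * ((starRingEnd ℂ) (Ψ s) * Ψ s) := by
      intro s
      simp only [Pi.sub_apply, Pi.smul_apply, smul_eq_mul, map_sub, map_mul]
      ring
    simp only [e3]
    rw [Finset.sum_add_distrib, Finset.sum_sub_distrib, Finset.sum_sub_distrib, ← Finset.mul_sum,
      ← Finset.mul_sum, ← Finset.mul_sum, e1, e2]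
    have e4 : ∑ s, (starRingEnd ℂ) (Ψ s) * x s = ip Ψ x := rfl
    rw [e4]
    have e5 : (starRingEnd ℂ) (ip Ψ x) * ip Ψ x = ((‖ip Ψ x‖ : ℝ) : ℂ) ^ 2 := by
      rw [Complex.conj_mul']
    rw [← e5]
    ring
  exact_mod_cast h1

lemma normSq_nonneg' (x : n → ℂ) : 0 ≤ normSq x := Finset.sum_nonneg fun _ _ => by positivity

lemma bessel (Ψ x : n → ℂ) (hΨ : normSq Ψ = 1) : ‖ip Ψ x‖ ^ 2 ≤ normSq x := by
  have := pyth Ψ x hΨ
  linarith [normSq_nonneg' (x - (ip Ψ x) • Ψ)]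

lemma normSq_conj (x : n → ℂ) : normSq (fun s => (starRingEnd ℂ) (x s)) = normSq x := by
  unfold normSq
  refine Finset.sum_congr rfl fun s _ => ?_
  rw [RCLike.norm_conj]

lemma normSq_dv (Ψ : n → ℂ) (hΨ : normSq Ψ = 1) : normSq (dv Ψ) = 1 := by
  have h : normSq (dv Ψ) = normSq Ψ * normSq Ψ := by
    unfold normSq dv
    rw [Fintype.sum_prod_type, Finset.sum_mul_sum]
    refine Finset.sum_congr rfl fun i _ => Finset.sum_congr rfl fun t _ => ?_
    rw [norm_mul, mul_pow, RCLike.norm_conj]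
  rw [h, hΨ, one_mul]

/-- the two partial projections -/
lemma two_proj (Ψ : n → ℂ) (hΨ : normSq Ψ = 1) (φ : n × n → ℂ) :
    ∑ t, ‖ip Ψ (fun s => φ (s, t))‖ ^ 2 +
      ∑ s, ‖ip Ψ (fun t => (starRingEnd ℂ) (φ (s, t)))‖ ^ 2 ≤
      normSq φ + ‖ip (dv Ψ) φ‖ ^ 2 := by
  set a : n → ℂ := fun t => ip Ψ (fun s => φ (s, t)) with ha
  set b : n → ℂ := fun s => ∑ t, Ψ t * φ (s, t) with hb
  have hbn : ∀ s, ‖ip Ψ (fun t => (starRingEnd ℂ) (φ (s, t)))‖ = ‖b s‖ := by
    intro s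
    have : ip Ψ (fun t => (starRingEnd ℂ) (φ (s, t))) = (starRingEnd ℂ) (b s) := by
      rw [hb]
      unfold ip
      rw [map_sum]
      refine Finset.sum_congr rfl fun t _ => ?_
      rw [map_mul]
    rw [this, RCLike.norm_conj]
  simp only [hbn]
  set c := ip (dv Ψ) φ with hc
  have hca : ∑ t, Ψ t * a t = c := by
    rw [hc, ha]
    unfold ip dv
    rw [Fintype.sum_prod_type, Finset.sum_comm]
    refine Finset.sum_congr rfl fun t _ => ?_
    rw [Finset.mul_sum]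
    refine Finset.sum_congr rfl fun s _ => ?_
    rw [map_mul, Complex.conj_conj]
    ring
  have hcb : ip Ψ b = c := by
    rw [hc, hb]
    unfold ip dv
    rw [Fintype.sum_prod_type]
    refine Finset.sum_congr rfl fun s _ => ?_
    rw [Finset.mul_sum]
    refine Finset.sum_congr rfl fun t _ => ?_
    rw [map_mul, Complex.conj_conj]
    ring
  -- columns
  have hN : normSq φ = ∑ t, normSq (fun s => φ (s, t)) := by
    unfold normSq
    rw [Fintype.sum_prod_type, Finset.sum_comm]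
  have h1 : ∑ t, normSq ((fun s => φ (s, t)) - a t • Ψ) = normSq φ - ∑ t, ‖a t‖ ^ 2 := by
    rw [hN, ← Finset.sum_sub_distrib]
    exact Finset.sum_congr rfl fun t _ => pyth Ψ _ hΨ
  -- rows
  have h2 : ∑ t, normSq ((fun s => φ (s, t)) - a t • Ψ) =
      ∑ s, normSq (fun t => (starRingEnd ℂ) (φ (s, t) - a t * Ψ s)) := by
    unfold normSq
    rw [Finset.sum_comm]
    refine Finset.sum_congr rfl fun s _ => Finset.sum_congr rfl fun t _ => ?_
    rw [RCLike.norm_conj]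
    rfl
  have h3 : ∀ s, ‖(b - c • Ψ) s‖ ^ 2 ≤ normSq (fun t => (starRingEnd ℂ) (φ (s, t) - a t * Ψ s)) := by
    intro s
    have e : ip Ψ (fun t => (starRingEnd ℂ) (φ (s, t) - a t * Ψ s)) =
        (starRingEnd ℂ) ((b - c • Ψ) s) := by
      have : (b - c • Ψ) s = ∑ t, Ψ t * (φ (s, t) - a t * Ψ s) := by
        simp only [mul_sub, Finset.sum_sub_distrib, Pi.sub_apply, Pi.smul_apply, smul_eq_mul, hb]
        congr 1
        rw [← hca, Finset.sum_mul]
        exact Finset.sum_congr rfl fun t _ => by ring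
      rw [this]
      unfold ip
      rw [map_sum]
      exact Finset.sum_congr rfl fun t _ => by rw [map_mul]
    have h4 := bessel Ψ (fun t => (starRingEnd ℂ) (φ (s, t) - a t * Ψ s)) hΨ
    rwa [e, RCLike.norm_conj] at h4
  have h5 : normSq (b - c • Ψ) = normSq b - ‖c‖ ^ 2 := by
    have := pyth Ψ b hΨ
    rwa [hcb] at this
  have h6 : normSq (b - c • Ψ) ≤ normSq φ - ∑ t, ‖a t‖ ^ 2 := by
    rw [← h1, h2]
    exact Finset.sum_le_sum fun s _ => h3 s
  have h7 : normSq b = ∑ s, ‖b s‖ ^ 2 := rfl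
  linarith

lemma ip_self' (x : n → ℂ) : ip x x = ((normSq x : ℝ) : ℂ) := by
  unfold ip normSq
  push_cast
  refine Finset.sum_congr rfl fun s _ => ?_
  rw [Complex.conj_mul']

/-- the energy inequality for `H ⊗ 1 + 1 ⊗ H̄` -/
lemma gap2 (H : Matrix n n ℂ) (hH : H.IsHermitian) (Δ : ℝ) (hΔ : 0 < Δ) (Ψ : n → ℂ)
    (hΨ : normSq Ψ = 1) (hgr : IsGappedGround H Δ Ψ) (φ : n × n → ℂ) :
    2 * (ip Ψ (H *ᵥ Ψ)).re * normSq φ + Δ * (normSq φ - ‖ip (dv Ψ) φ‖ ^ 2) ≤
      (ip φ (H2 H *ᵥ φ)).re := by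
  set E := (ip Ψ (H *ᵥ Ψ)).re with hE
  have h1 : ∀ t, E * normSq (fun s => φ (s, t)) + Δ * (normSq (fun s => φ (s, t)) -
      ‖ip Ψ (fun s => φ (s, t))‖ ^ 2) ≤ (ip (fun s => φ (s, t)) (H *ᵥ fun s => φ (s, t))).re :=
    fun t => gap_ineq H hH Δ hΔ Ψ hΨ hgr _
  have h2 : ∀ s, E * normSq (fun t => (starRingEnd ℂ) (φ (s, t))) +
      Δ * (normSq (fun t => (starRingEnd ℂ) (φ (s, t))) -
      ‖ip Ψ (fun t => (starRingEnd ℂ) (φ (s, t)))‖ ^ 2) ≤
      (ip (fun t => (starRingEnd ℂ) (φ (s, t))) (H *ᵥ fun t => (starRingEnd ℂ) (φ (s, t)))).re :=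
    fun s => gap_ineq H hH Δ hΔ Ψ hΨ hgr _
  have h3 : (ip φ (H2 H *ᵥ φ)).re =
      ∑ t, (ip (fun s => φ (s, t)) (H *ᵥ fun s => φ (s, t))).re +
      ∑ s, (ip (fun t => (starRingEnd ℂ) (φ (s, t)))
        (H *ᵥ fun t => (starRingEnd ℂ) (φ (s, t)))).re := by
    have e : ip φ (H2 H *ᵥ φ) = ∑ t, ip (fun s => φ (s, t)) (H *ᵥ fun s => φ (s, t)) +
        ∑ s, (starRingEnd ℂ) (ip (fun t => (starRingEnd ℂ) (φ (s, t)))
        (H *ᵥ fun t => (starRingEnd ℂ) (φ (s, t)))) := by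
      unfold ip
      rw [Fintype.sum_prod_type]
      simp only [H2_mulVec, mul_add, Finset.sum_add_distrib]
      congr 1
      · rw [Finset.sum_comm]
      · refine Finset.sum_congr rfl fun s _ => ?_
        rw [map_sum]
        refine Finset.sum_congr rfl fun t _ => ?_
        rw [map_mul, Complex.conj_conj]
        congr 1
        unfold Matrix.mulVec dotProduct
        rw [map_sum]
        refine Finset.sum_congr rfl fun t' _ => ?_
        rw [map_mul, Complex.conj_conj]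
    rw [e, Complex.add_re, Complex.re_sum, Complex.re_sum]
    congr 1
  rw [h3]
  have h4 := Finset.sum_le_sum fun (t : n) (_ : t ∈ univ) => h1 t
  have h5 := Finset.sum_le_sum fun (s : n) (_ : s ∈ univ) => h2 s
  simp only [normSq_conj] at h5
  have hN1 : normSq φ = ∑ t, normSq (fun s => φ (s, t)) := by
    unfold normSq
    rw [Fintype.sum_prod_type, Finset.sum_comm]
  have hN2 : normSq φ = ∑ s, normSq (fun t => φ (s, t)) := by
    unfold normSq
    rw [Fintype.sum_prod_type]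
  rw [Finset.sum_add_distrib, ← Finset.mul_sum, ← Finset.mul_sum, Finset.sum_sub_distrib,
    ← hN1] at h4
  rw [Finset.sum_add_distrib, ← Finset.mul_sum, ← Finset.mul_sum, Finset.sum_sub_distrib,
    ← hN2] at h5
  have h6 := two_proj Ψ hΨ φ
  nlinarith [mul_le_mul_of_nonneg_left h6 hΔ.le]

lemma H2_dv (H : Matrix n n ℂ) (E : ℝ) (Ψ : n → ℂ) (h : H *ᵥ Ψ = (E : ℂ) • Ψ) :
    H2 H *ᵥ dv Ψ = ((2 * E : ℝ) : ℂ) • dv Ψ := by
  funext p
  obtain ⟨s, t⟩ := p
  rw [H2_mulVec]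
  have e1 : (fun s' => dv Ψ (s', t)) = ((starRingEnd ℂ) (Ψ t)) • Ψ := by
    funext s'
    simp [dv, mul_comm]
  have e2 : ((fun i j => (starRingEnd ℂ) (H i j)) *ᵥ fun t' => dv Ψ (s, t') : n → ℂ) t =
      Ψ s * (starRingEnd ℂ) ((H *ᵥ Ψ) t) := by
    unfold Matrix.mulVec dotProduct dv
    rw [map_sum, Finset.mul_sum]
    refine Finset.sum_congr rfl fun t' _ => ?_
    rw [map_mul]
    ring
  rw [e1, e2, Matrix.mulVec_smul, h]
  simp only [Pi.smul_apply, smul_eq_mul, map_mul, Complex.conj_ofReal, dv]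
  push_cast
  ring

lemma H2_herm (H : Matrix n n ℂ) (hH : H.IsHermitian) : (H2 H).IsHermitian := by
  ext p q
  rw [Matrix.conjTranspose_apply]
  have h1 : ∀ i j, star (H i j) = H j i := fun i j => by
    rw [← Matrix.conjTranspose_apply, hH]
  unfold H2
  rw [star_add]
  congr 1
  · by_cases h : p.2 = q.2
    · rw [if_pos h, if_pos h.symm, h1]
    · rw [if_neg h, if_neg (fun hh => h hh.symm), star_zero]
  · by_cases h : p.1 = q.1
    · rw [if_pos h, if_pos h.symm, ← h1 p.2 q.2]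
      simp
    · rw [if_neg h, if_neg (fun hh => h hh.symm), star_zero]

lemma ip_herm (A : Matrix n n ℂ) (hA : A.IsHermitian) (x y : n → ℂ) :
    ip x (A *ᵥ y) = ip (A *ᵥ x) y := by
  unfold ip Matrix.mulVec dotProduct
  simp only [map_sum, Finset.mul_sum, Finset.sum_mul]
  rw [Finset.sum_comm]
  refine Finset.sum_congr rfl fun j _ => Finset.sum_congr rfl fun i _ => ?_
  have h1 : star (A j i) = A i j := by rw [← Matrix.conjTranspose_apply, hA]
  rw [map_mul, starRingEnd_apply, starRingEnd_apply, h1]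
  ring

/-- **The double has the same gap.** -/
theorem double_gap (H : Matrix n n ℂ) (hH : H.IsHermitian) (Δ : ℝ) (hΔ : 0 < Δ) (Ψ : n → ℂ)
    (hΨ : normSq Ψ = 1) (hgr : IsGappedGround H Δ Ψ) : IsGappedGround (H2 H) Δ (dv Ψ) := by
  have hgr' := hgr
  obtain ⟨E, hE, -, -⟩ := hgr'
  have hEE : (ip Ψ (H *ᵥ Ψ)).re = E := by
    rw [hE, ip_smul_right, ip_self_one Ψ hΨ, mul_one, Complex.ofReal_re]
  have hineq := gap2 H hH Δ hΔ Ψ hΨ hgr
  rw [hEE] at hineq
  have hval : ∀ (E' : ℝ) (φ : n × n → ℂ), H2 H *ᵥ φ = (E' : ℂ) • φ →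
      (ip φ (H2 H *ᵥ φ)).re = E' * normSq φ := by
    intro E' φ h
    rw [h, ip_smul_right, ip_self']
    simp
  refine ⟨2 * E, H2_dv H E Ψ hE, ?_, ?_⟩
  · intro φ hφ
    have h1 := hineq φ
    rw [hval (2 * E) φ hφ] at h1
    have h2 : normSq φ ≤ ‖ip (dv Ψ) φ‖ ^ 2 := by
      by_contra hlt
      push Not at hlt
      nlinarith
    have h3 := pyth (dv Ψ) φ (normSq_dv Ψ hΨ)
    have h4 : normSq (φ - ip (dv Ψ) φ • dv Ψ) = 0 :=
      le_antisymm (by linarith) (normSq_nonneg' _)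
    refine ⟨ip (dv Ψ) φ, ?_⟩
    funext p
    have h5 := (Finset.sum_eq_zero_iff_of_nonneg (fun _ _ => by positivity)).1 h4 p (mem_univ _)
    have h6 : (φ - ip (dv Ψ) φ • dv Ψ) p = 0 := by
      have : ‖(φ - ip (dv Ψ) φ • dv Ψ) p‖ = 0 := by
        by_contra hne
        have : 0 < ‖(φ - ip (dv Ψ) φ • dv Ψ) p‖ ^ 2 := by positivity
        linarith
      exact norm_eq_zero.1 this
    rw [Pi.sub_apply, sub_eq_zero] at h6
    exact h6
  · intro E' φ hφ0 hφ
    by_cases hEE' : E' = 2 * E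
    · exact Or.inl hEE'
    · right
      have h1 := hineq φ
      rw [hval E' φ hφ] at h1
      have hc : ip (dv Ψ) φ = 0 := by
        have k1 : ip (dv Ψ) (H2 H *ᵥ φ) = (E' : ℂ) * ip (dv Ψ) φ := by
          have : H2 H *ᵥ φ = (E' : ℂ) • φ := hφ
          rw [this, ip_smul_right]
        have k2 : ip (dv Ψ) (H2 H *ᵥ φ) = ((2 * E : ℝ) : ℂ) * ip (dv Ψ) φ := by
          rw [ip_herm _ (H2_herm H hH), H2_dv H E Ψ hE, ip_smul_left, Complex.conj_ofReal]
        rw [k1] at k2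
        have k3 : ((E' : ℂ) - ((2 * E : ℝ) : ℂ)) * ip (dv Ψ) φ = 0 := by
          rw [sub_mul, k2, sub_self]
        rcases mul_eq_zero.1 k3 with h | h
        · exfalso
          apply hEE'
          have : (E' : ℂ) = ((2 * E : ℝ) : ℂ) := sub_eq_zero.1 h
          exact_mod_cast this
        · exact h
      have hpos : 0 < normSq φ := by
        rcases lt_or_eq_of_le (normSq_nonneg' φ) with h | h
        · exact h
        · exfalso
          apply hφ0
          funext p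
          have h5 := (Finset.sum_eq_zero_iff_of_nonneg (fun _ _ => by positivity)).1 h.symm p
            (mem_univ _)
          have : ‖φ p‖ = 0 := by
            by_contra hne
            have : 0 < ‖φ p‖ ^ 2 := by positivity
            linarith
          exact norm_eq_zero.1 this
      rw [hc, norm_zero] at h1
      have h7 : (2 * E + Δ) * normSq φ ≤ E' * normSq φ := by nlinarith
      exact le_of_mul_le_mul_right h7 hpos

end dbl

end Pool.Agent.U753.PE
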