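import Pool.Agent.U753.PE.Circ
import Pool.Agent.U753.PE.Fam
import Pool.Agent.Y159.PepsScale

/-!
Ground states which, stacked with a partner, overlap with circuits applied to PEPS.
-/

set_option autoImplicit false
set_option linter.unusedSectionVars false

open scoped BigOperators Matrix
open Finset Pool.Agent.TH235.PP Pool.Agent.Results.MP_953b23_mp.OverlapBoosting

namespace Pool.Agent.U753.PE

/-- The tensor product of the vector `Ψ` of a system of local dimension `d` and the vector `χ` of a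
system of local dimension `a`, as a vector of a system of local dimension `n`; the bijection `e`
identifies the basis states `1, ..., n` of a site with the pairs. -/
def stackE {V : Type*} {n d a : ℕ} (e : Fin n ≃ Fin d × Fin a) (Ψ : (V → Fin d) → ℂ)
    (χ : (V → Fin a) → ℂ) : (V → Fin n) → ℂ := fun s =>
  Ψ (fun x => (e (s x)).1) * χ (fun x => (e (s x)).2)

section
variable {V : Type*} {n d a : ℕ} (e : Fin n ≃ Fin d × Fin a)

/-- configurations of the stacked system are pairs of configurations -/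
def cfE (V : Type*) {n d a : ℕ} (e : Fin n ≃ Fin d × Fin a) :
    (V → Fin n) ≃ (V → Fin d) × (V → Fin a) where
  toFun s := (fun x => (e (s x)).1, fun x => (e (s x)).2)
  invFun q := fun x => e.symm (q.1 x, q.2 x)
  left_inv s := by
    funext x
    simp
  right_inv q := by
    obtain ⟨i, t⟩ := q
    simp

lemma stackE_symm (Ψ : (V → Fin d) → ℂ) (χ : (V → Fin a) → ℂ) (i : V → Fin d) (t : V → Fin a) :
    stackE e Ψ χ (fun x => e.symm (i x, t x)) = Ψ i * χ t := by
  unfold stackE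
  simp

variable [Fintype V] [DecidableEq V]

lemma sum_cfE {M : Type*} [AddCommMonoid M] (F : (V → Fin n) → M) :
    ∑ s, F s = ∑ t : V → Fin a, ∑ i : V → Fin d, F (fun x => e.symm (i x, t x)) := by
  rw [Finset.sum_comm, ← Fintype.sum_prod_type', ← Equiv.sum_comp (cfE V e).symm F]
  rfl

/-- components -/
def compE (φ : (V → Fin n) → ℂ) (t : V → Fin a) : (V → Fin d) → ℂ := fun i =>
  φ fun x => e.symm (i x, t x)

lemma normSq_compE (φ : (V → Fin n) → ℂ) : ∑ t, normSq (compE e φ t) = normSq φ := by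
  unfold normSq compE
  rw [sum_cfE e]

lemma ip_stackE (Ψ : (V → Fin d) → ℂ) (χ : (V → Fin a) → ℂ) (φ : (V → Fin n) → ℂ) :
    ip (stackE e Ψ χ) φ = ∑ t, (starRingEnd ℂ) (χ t) * ip Ψ (compE e φ t) := by
  unfold ip
  rw [sum_cfE e]
  refine Finset.sum_congr rfl fun t _ => ?_
  rw [Finset.mul_sum]
  refine Finset.sum_congr rfl fun i _ => ?_
  rw [stackE_symm, map_mul]
  unfold compE
  ring

lemma normSq_stackE (Ψ : (V → Fin d) → ℂ) (χ : (V → Fin a) → ℂ) :
    normSq (stackE e Ψ χ) = normSq Ψ * normSq χ := by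
  unfold normSq
  rw [sum_cfE e, Finset.sum_mul_sum, Finset.sum_comm]
  refine Finset.sum_congr rfl fun i _ => Finset.sum_congr rfl fun t _ => ?_
  rw [stackE_symm, norm_mul, mul_pow]

lemma nr_stackE (Ψ : (V → Fin d) → ℂ) (χ : (V → Fin a) → ℂ) :
    nr (stackE e Ψ χ) = nr Ψ * nr χ := by
  have h : nr (stackE e Ψ χ) ^ 2 = (nr Ψ * nr χ) ^ 2 := by
    rw [mul_pow, nr_sq, nr_sq, nr_sq, normSq_stackE]
  exact (pow_left_inj₀ (nr_nonneg _) (mul_nonneg (nr_nonneg _) (nr_nonneg _)) two_ne_zero).1 h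

/-- the overlap of a product with a vector is bounded by the overlaps of the components -/
lemma overlap_le (Ψ : (V → Fin d) → ℂ) (χ : (V → Fin a) → ℂ) (hχ : normSq χ = 1)
    (φ : (V → Fin n) → ℂ) :
    ‖ip (stackE e Ψ χ) φ‖ ^ 2 ≤ ∑ t, ‖ip Ψ (compE e φ t)‖ ^ 2 := by
  rw [ip_stackE]
  have h1 : ‖∑ t, (starRingEnd ℂ) (χ t) * ip Ψ (compE e φ t)‖ ≤
      ∑ t, ‖χ t‖ * ‖ip Ψ (compE e φ t)‖ := by
    refine (norm_sum_le _ _).trans (le_of_eq ?_)
    refine Finset.sum_congr rfl fun t _ => ?_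
    rw [norm_mul, RCLike.norm_conj]
  have h2 := Finset.sum_mul_sq_le_sq_mul_sq univ (fun t => ‖χ t‖) (fun t => ‖ip Ψ (compE e φ t)‖)
  have h3 : ∑ t, ‖χ t‖ ^ 2 = 1 := hχ
  rw [h3, one_mul] at h2
  exact (pow_le_pow_left₀ (norm_nonneg _) h1 2).trans h2

end

section peps

variable {n d a L : ℕ} [NeZero L] (e : Fin n ≃ Fin d × Fin a)

lemma purified {D : ℕ} {φ : (Site L → Fin n) → ℂ} (h : IsPEPS D φ) :
    IsPurified D (fun t => compE e φ t) := by
  obtain ⟨A, rfl⟩ := h
  exact ⟨fun x i j => A x (e.symm (i, j)), fun t => rfl⟩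

lemma stackE_peps {D D' : ℕ} {φ : (Site L → Fin d) → ℂ} {φ' : (Site L → Fin a) → ℂ}
    (h : IsPEPS D φ) (h' : IsPEPS D' φ') : IsPEPS (D * D') (stackE e φ φ') := by
  obtain ⟨A, rfl⟩ := h
  obtain ⟨A', rfl⟩ := h'
  have e1 : stackE e (contract A) (contract A') = contract (K := Fin D × Fin D')
      (fun x z l r dn up => A x (e z).1 l.1 r.1 dn.1 up.1 * A' x (e z).2 l.2 r.2 dn.2 up.2) := by
    funext s
    unfold stackE contract
    rw [Finset.sum_mul_sum]
    have h1 : ∀ (F : (Site L → Fin D × Fin D') → ℂ),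
        ∑ H, F H = ∑ h : Site L → Fin D, ∑ w : Site L → Fin D', F (fun v => (h v, w v)) :=
      fun F => sum_pair F
    rw [h1]
    refine Finset.sum_congr rfl fun h0 _ => Finset.sum_congr rfl fun h0' _ => ?_
    rw [h1, Finset.sum_mul_sum]
    refine Finset.sum_congr rfl fun v0 _ => Finset.sum_congr rfl fun v0' _ => ?_
    rw [← Finset.prod_mul_distrib]
  rw [e1]
  have := isPEPS_contract (K := Fin D × Fin D')
      (fun x (z : Fin n) l r dn up => A x (e z).1 l.1 r.1 dn.1 up.1 * A' x (e z).2 l.2 r.2 dn.2 up.2)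
  simpa using this

lemma stackE_sub_left (φ Ψ : (Site L → Fin d) → ℂ) (χ : (Site L → Fin a) → ℂ) :
    stackE e φ χ - stackE e Ψ χ = stackE e (φ - Ψ) χ := by
  funext s
  simp only [stackE, Pi.sub_apply]
  ring

end peps

end Pool.Agent.U753.PE
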