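import Pool.Agent.U753.PE.Gap

/-!
The double of an interaction: `h ⊗ 1 + 1 ⊗ h̄` in a local basis in which it is real.
-/

set_option autoImplicit false
set_option linter.unusedSectionVars false

open scoped BigOperators Matrix
open Finset Pool.Agent.TH235.PP

namespace Pool.Agent.U753.PE

section one

variable {d : ℕ}

/-- exchange of the two layers at one site -/
def swp (z : Fin (d * d)) : Fin (d * d) := finProdFinEquiv (p2 z, p1 z)

lemma swp_swp (z : Fin (d * d)) : swp (swp z) = z := by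
  unfold swp
  rw [p1_fp, p2_fp]
  simp only [p1, p2]
  exact finProdFinEquiv.apply_symm_apply z

lemma p1_swp (z : Fin (d * d)) : p1 (swp z) = p2 z := by simp [swp]
lemma p2_swp (z : Fin (d * d)) : p2 (swp z) = p1 z := by simp [swp]

/-- the exchange operator -/
def SW (d : ℕ) : Matrix (Fin (d * d)) (Fin (d * d)) ℂ := fun z z' => if z' = swp z then 1 else 0

/-- a square root of the exchange operator, up to a phase -/
noncomputable def WM (d : ℕ) : Matrix (Fin (d * d)) (Fin (d * d)) ℂ :=
  ((1 + Complex.I) / 2) • (1 : Matrix (Fin (d * d)) (Fin (d * d)) ℂ) +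
    ((1 - Complex.I) / 2) • SW d

lemma SW_mul (M : Matrix (Fin (d * d)) (Fin (d * d)) ℂ) (z z' : Fin (d * d)) :
    (SW d * M) z z' = M (swp z) z' := by
  rw [Matrix.mul_apply]
  simp [SW]

lemma SW_sq : SW d * SW d = 1 := by
  ext z z'
  rw [SW_mul, Matrix.one_apply]
  unfold SW
  rw [swp_swp]
  by_cases h : z = z'
  · rw [if_pos h, if_pos h.symm]
  · rw [if_neg h, if_neg (fun hh => h hh.symm)]

lemma SW_herm : (SW d)ᴴ = SW d := by
  ext z z'
  rw [Matrix.conjTranspose_apply]
  unfold SW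
  by_cases h : z = swp z'
  · rw [if_pos h, if_pos (by rw [h, swp_swp]), star_one]
  · rw [if_neg h, if_neg (fun hh => h (by rw [hh, swp_swp])), star_zero]

lemma WM_herm : (WM d)ᴴ = ((1 - Complex.I) / 2) • (1 : Matrix (Fin (d * d)) (Fin (d * d)) ℂ) +
    ((1 + Complex.I) / 2) • SW d := by
  unfold WM
  rw [Matrix.conjTranspose_add, Matrix.conjTranspose_smul, Matrix.conjTranspose_smul, SW_herm,
    Matrix.conjTranspose_one]
  congr 2
  · simp [Complex.ext_iff]
  · simp [Complex.ext_iff]

lemma coef1 : ((1 - Complex.I) / 2) * ((1 + Complex.I) / 2) = (1 / 2 : ℂ) := by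
  have : ((1 - Complex.I) / 2) * ((1 + Complex.I) / 2) = (1 - Complex.I ^ 2) / 4 := by ring
  rw [this, Complex.I_sq]
  norm_num

lemma coef2 : ((1 - Complex.I) / 2) * ((1 - Complex.I) / 2) +
    ((1 + Complex.I) / 2) * ((1 + Complex.I) / 2) = (0 : ℂ) := by
  have : ((1 - Complex.I) / 2) * ((1 - Complex.I) / 2) +
    ((1 + Complex.I) / 2) * ((1 + Complex.I) / 2) = (1 + Complex.I ^ 2) / 2 := by ring
  rw [this, Complex.I_sq]
  norm_num

lemma WM_unit : (WM d)ᴴ * WM d = 1 := by
  rw [WM_herm]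
  unfold WM
  rw [add_mul, mul_add, mul_add, smul_mul_smul_comm, smul_mul_smul_comm, smul_mul_smul_comm,
    smul_mul_smul_comm, SW_sq, one_mul, one_mul, mul_one]
  rw [coef1, mul_comm ((1 + Complex.I) / 2) ((1 - Complex.I) / 2), coef1]
  have h : ((1 / 2 : ℂ) • (1 : Matrix (Fin (d * d)) (Fin (d * d)) ℂ) +
      ((1 - Complex.I) / 2 * ((1 - Complex.I) / 2)) • SW d) +
      (((1 + Complex.I) / 2 * ((1 + Complex.I) / 2)) • SW d + (1 / 2 : ℂ) • 1) =
      ((1 / 2 : ℂ) + 1 / 2) • (1 : Matrix (Fin (d * d)) (Fin (d * d)) ℂ) +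
      (((1 - Complex.I) / 2) * ((1 - Complex.I) / 2) +
        ((1 + Complex.I) / 2) * ((1 + Complex.I) / 2)) • SW d := by
    rw [add_smul, add_smul]
    abel
  rw [h, coef2, zero_smul, add_zero]
  norm_num

lemma WM_unit' : WM d * (WM d)ᴴ = 1 := mul_eq_one_comm.1 WM_unit

lemma WM_conj : (WM d).map (starRingEnd ℂ) = SW d * WM d := by
  ext z z'
  rw [SW_mul, Matrix.map_apply]
  unfold WM
  simp only [Matrix.add_apply, Matrix.smul_apply, Matrix.one_apply, smul_eq_mul]
  unfold SW
  rw [swp_swp]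
  have e0 : (starRingEnd ℂ) (2 : ℂ) = 2 := by
    have : (2 : ℂ) = ((2 : ℝ) : ℂ) := by norm_num
    rw [this, Complex.conj_ofReal]
  have e1 : (starRingEnd ℂ) ((1 + Complex.I) / 2) = (1 - Complex.I) / 2 := by
    rw [map_div₀, e0, map_add, map_one, Complex.conj_I]
    ring
  have e2 : (starRingEnd ℂ) ((1 - Complex.I) / 2) = (1 + Complex.I) / 2 := by
    rw [map_div₀, e0, map_sub, map_one, Complex.conj_I]
    ring
  rw [map_add, map_mul, map_mul, e1, e2]
  by_cases h1 : z = z'
  · subst h1
    by_cases h2 : z = swp z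
    · simp only [if_pos h2.symm, if_pos h2, if_true, map_one]
      ring
    · simp only [if_neg h2, if_neg (fun hh : swp z = z => h2 hh.symm), if_true, map_one, map_zero]
      ring
  · by_cases h2 : z' = swp z
    · rw [if_neg h1, if_pos h2, if_pos h2.symm, if_neg (fun hh => h1 hh.symm)]
      simp
    · rw [if_neg h1, if_neg h2, if_neg (fun hh => h2 hh.symm), if_neg (fun hh => h1 hh.symm)]
      simp

end one

section tpl

variable {V : Type*} [Fintype V] [DecidableEq V] {n : ℕ}

lemma tp_conjT (a : V → Matrix (Fin n) (Fin n) ℂ) : (tp a)ᴴ = tp fun v => (a v)ᴴ := by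
  ext s t
  rw [Matrix.conjTranspose_apply]
  unfold tp
  rw [star_prod]
  rfl

lemma tp_map (a : V → Matrix (Fin n) (Fin n) ℂ) :
    (tp a).map (starRingEnd ℂ) = tp fun v => (a v).map (starRingEnd ℂ) := by
  ext s t
  rw [Matrix.map_apply]
  unfold tp
  rw [map_prod]
  rfl

lemma tp_unit (w : Matrix (Fin n) (Fin n) ℂ) (h : wᴴ * w = 1) :
    (tp fun _ : V => w)ᴴ * (tp fun _ : V => w) = 1 := by
  rw [tp_conjT, tp_mul]
  simp only [h]
  exact tp_one

end tpl

section conj

variable {n R L : ℕ} [NeZero L]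

lemma sh_inj (hRL : R ≤ L) (u : Site L) : Function.Injective (sh (R := R) u) := by
  have key : ∀ a b : Fin R, ((a : ℕ) : ZMod L) = ((b : ℕ) : ZMod L) → a = b := by
    intro a b h
    have h1 := (ZMod.natCast_eq_natCast_iff' _ _ _).1 h
    rw [Nat.mod_eq_of_lt (lt_of_lt_of_le a.2 hRL), Nat.mod_eq_of_lt (lt_of_lt_of_le b.2 hRL)] at h1
    exact Fin.ext h1
  intro x y h
  unfold sh at h
  rw [Prod.mk.injEq] at h
  ext
  · exact congrArg Fin.val (key _ _ (add_left_cancel h.1))
  · exact congrArg Fin.val (key _ _ (add_left_cancel h.2))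

lemma loc_in (hRL : R ≤ L) (u : Site L) (p q : Fin R × Fin R → Fin n) (x : Fin R × Fin R)
    (a b : Fin n) : loc u p q (sh u x) a b = if a = p x ∧ b = q x then 1 else 0 := by
  unfold loc
  congr 1
  apply propext
  constructor
  · intro h
    exact h.1 x rfl
  · intro h
    refine ⟨fun y hy => ?_, fun hh => absurd rfl (hh x)⟩
    rw [sh_inj hRL u hy]
    exact h

/-- conjugation of a matrix unit of a box by a product of unitaries -/
lemma prod_loc (hRL : R ≤ L) (w : Matrix (Fin n) (Fin n) ℂ) (hw : wᴴ * w = 1) (u : Site L)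
    (p q : Fin R × Fin R → Fin n) (s t : Site L → Fin n)
    [Decidable (∀ v, (∀ x : Fin R × Fin R, sh u x ≠ v) → s v = t v)] :
    ∏ v, (wᴴ * loc u p q v * w) (s v) (t v) =
      if ∀ v, (∀ x : Fin R × Fin R, sh u x ≠ v) → s v = t v then
        ∏ x : Fin R × Fin R, (star (w (p x) (s (sh u x))) * w (q x) (t (sh u x))) else 0 := by
  classical
  have hin : ∀ x : Fin R × Fin R, (wᴴ * loc u p q (sh u x) * w) (s (sh u x)) (t (sh u x)) =
      star (w (p x) (s (sh u x))) * w (q x) (t (sh u x)) := by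
    intro x
    rw [Matrix.mul_apply]
    have h1 : ∀ b, (wᴴ * loc u p q (sh u x)) (s (sh u x)) b =
        if b = q x then star (w (p x) (s (sh u x))) else 0 := by
      intro b
      rw [Matrix.mul_apply]
      simp only [loc_in hRL, Matrix.conjTranspose_apply]
      by_cases hb : b = q x
      · simp [hb]
      · simp [hb]
    simp only [h1, ite_mul, zero_mul]
    rw [Finset.sum_ite_eq']
    simp
  have hout : ∀ v, (∀ x : Fin R × Fin R, sh u x ≠ v) →
      (wᴴ * loc u p q v * w) (s v) (t v) = if s v = t v then 1 else 0 := by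
    intro v hv
    rw [loc_out u p q v hv, mul_one, hw, Matrix.one_apply]
  set B : Finset (Site L) := univ.image (sh (R := R) u) with hB
  have hmem : ∀ v, v ∉ B ↔ ∀ x : Fin R × Fin R, sh u x ≠ v := by
    intro v
    rw [hB]
    simp
  rw [← Finset.prod_mul_prod_compl B]
  have h1 : ∏ v ∈ B, (wᴴ * loc u p q v * w) (s v) (t v) =
      ∏ x : Fin R × Fin R, (star (w (p x) (s (sh u x))) * w (q x) (t (sh u x))) := by
    rw [hB, Finset.prod_image (fun x _ y _ h => sh_inj hRL u h)]
    exact Finset.prod_congr rfl fun x _ => hin x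
  have h2 : ∏ v ∈ Bᶜ, (wᴴ * loc u p q v * w) (s v) (t v) =
      if ∀ v, (∀ x : Fin R × Fin R, sh u x ≠ v) → s v = t v then 1 else 0 := by
    split_ifs with hc
    · apply Finset.prod_eq_one
      intro v hv
      have hv' := (hmem v).1 (Finset.mem_compl.1 hv)
      rw [hout v hv', if_pos (hc v hv')]
    · push Not at hc
      obtain ⟨v, hv, hne⟩ := hc
      apply Finset.prod_eq_zero (i := v)
      · rw [Finset.mem_compl, hmem]
        exact hv
      · rw [hout v hv, if_neg hne]
  rw [h1, h2]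
  split_ifs <;> simp

lemma term_conj (hRL : R ≤ L) (w : Matrix (Fin n) (Fin n) ℂ) (hw : wᴴ * w = 1) (g : BoxOp n R)
    (u : Site L) :
    term ((tp fun _ : Fin R × Fin R => w)ᴴ * g * (tp fun _ : Fin R × Fin R => w)) u =
      (tp fun _ : Site L => w)ᴴ * term g u * (tp fun _ : Site L => w) := by
  classical
  rw [term_eq g u, Finset.mul_sum, Finset.sum_mul]
  have h1 : ∀ pq : (Fin R × Fin R → Fin n) × (Fin R × Fin R → Fin n),
      (tp fun _ : Site L => w)ᴴ * g pq.1 pq.2 • tp (loc u pq.1 pq.2) * (tp fun _ : Site L => w) =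
      g pq.1 pq.2 • tp (fun v => wᴴ * loc u pq.1 pq.2 v * w) := by
    intro pq
    rw [mul_smul_comm, smul_mul_assoc, tp_conjT, tp_mul, tp_mul]
  simp only [h1]
  ext s t
  rw [Matrix.sum_apply]
  simp only [Matrix.smul_apply, smul_eq_mul]
  have h2 : ∀ pq : (Fin R × Fin R → Fin n) × (Fin R × Fin R → Fin n),
      tp (fun v => wᴴ * loc u pq.1 pq.2 v * w) s t =
      if ∀ v, (∀ x : Fin R × Fin R, sh u x ≠ v) → s v = t v then
        ∏ x : Fin R × Fin R, (star (w (pq.1 x) (s (sh u x))) * w (pq.2 x) (t (sh u x))) else 0 :=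
    fun pq => prod_loc hRL w hw u pq.1 pq.2 s t
  simp only [h2]
  unfold term
  by_cases hc : ∀ v, (∀ x : Fin R × Fin R, sh u x ≠ v) → s v = t v
  · rw [if_pos hc]
    simp only [if_pos hc]
    rw [Matrix.mul_apply]
    simp only [Matrix.mul_apply]
    rw [Fintype.sum_prod_type, Finset.sum_comm]
    refine Finset.sum_congr rfl fun q _ => ?_
    rw [Finset.sum_mul]
    refine Finset.sum_congr rfl fun p _ => ?_
    rw [tp_conjT]
    unfold tp
    rw [Finset.prod_mul_distrib]
    simp only [Matrix.conjTranspose_apply]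
    ring
  · rw [if_neg hc]
    simp only [if_neg hc, mul_zero, Finset.sum_const_zero]

lemma ham_conj (hRL : R ≤ L) (w : Matrix (Fin n) (Fin n) ℂ) (hw : wᴴ * w = 1) (g : BoxOp n R) :
    ham ((tp fun _ : Fin R × Fin R => w)ᴴ * g * (tp fun _ : Fin R × Fin R => w)) L =
      (tp fun _ : Site L => w)ᴴ * ham g L * (tp fun _ : Site L => w) := by
  unfold ham
  rw [Finset.mul_sum, Finset.sum_mul]
  exact Finset.sum_congr rfl fun u _ => term_conj hRL w hw g u

end conj

section dbl

variable {d R L : ℕ}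

/-- `H ⊗ 1 + 1 ⊗ H̄` as an operator of the stacked system -/
def dbl0 {V : Type*} [DecidableEq V] [Fintype V] (h : Matrix (V → Fin d) (V → Fin d) ℂ) :
    Matrix (V → Fin (d * d)) (V → Fin (d * d)) ℂ :=
  (H2 h).submatrix (pairE V d d).symm (pairE V d d).symm

lemma term_dbl0 [NeZero L] (h : BoxOp d R) (u : Site L) :
    term (dbl0 h) u = dbl0 (term h u) := by
  classical
  ext s t
  unfold term dbl0 H2 pairE
  simp only [Matrix.submatrix_apply, Equiv.coe_fn_symm_mk]
  by_cases h1 : ∀ v, (∀ x : Fin R × Fin R, sh u x ≠ v) → s v = t v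
  · rw [if_pos h1]
    have k1 : ∀ v, (∀ x : Fin R × Fin R, sh u x ≠ v) → p1 (s v) = p1 (t v) :=
      fun v hv => by rw [h1 v hv]
    have k2 : ∀ v, (∀ x : Fin R × Fin R, sh u x ≠ v) → p2 (s v) = p2 (t v) :=
      fun v hv => by rw [h1 v hv]
    rw [if_pos k1, if_pos k2]
    have e2 : ((fun x => p2 (s (sh u x))) = fun x : Fin R × Fin R => p2 (t (sh u x))) ↔
        ((fun x => p2 (s x)) = fun x => p2 (t x)) := by
      constructor
      · intro hh
        funext v
        by_cases hv : ∃ x : Fin R × Fin R, sh u x = v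
        · obtain ⟨x, rfl⟩ := hv
          exact congrFun hh x
        · push Not at hv
          exact k2 v hv
      · intro hh
        funext x
        exact congrFun hh (sh u x)
    have e1 : ((fun x => p1 (s (sh u x))) = fun x : Fin R × Fin R => p1 (t (sh u x))) ↔
        ((fun x => p1 (s x)) = fun x => p1 (t x)) := by
      constructor
      · intro hh
        funext v
        by_cases hv : ∃ x : Fin R × Fin R, sh u x = v
        · obtain ⟨x, rfl⟩ := hv
          exact congrFun hh x
        · push Not at hv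
          exact k1 v hv
      · intro hh
        funext x
        exact congrFun hh (sh u x)
    simp only [e1, e2]
  · rw [if_neg h1]
    push Not at h1
    obtain ⟨v, hv, hne⟩ := h1
    have hne' : p1 (s v) ≠ p1 (t v) ∨ p2 (s v) ≠ p2 (t v) := by
      by_contra hh
      push Not at hh
      apply hne
      have k3 : ∀ z : Fin (d * d), finProdFinEquiv (p1 z, p2 z) = z := fun z =>
        finProdFinEquiv.apply_symm_apply z
      rw [← k3 (s v), ← k3 (t v), hh.1, hh.2]
    rcases hne' with h2 | h2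
    · have k4 : ¬ ∀ v, (∀ x : Fin R × Fin R, sh u x ≠ v) → p1 (s v) = p1 (t v) :=
        fun hh => h2 (hh v hv)
      have k5 : ¬ ((fun x => p1 (s x)) = fun x => p1 (t x)) := fun hh => h2 (congrFun hh v)
      rw [if_neg k4, ite_self, if_neg k5, zero_add]
    · have k4 : ¬ ∀ v, (∀ x : Fin R × Fin R, sh u x ≠ v) → p2 (s v) = p2 (t v) :=
        fun hh => h2 (hh v hv)
      have k5 : ¬ ((fun x => p2 (s x)) = fun x => p2 (t x)) := fun hh => h2 (congrFun hh v)
      rw [if_neg k4, if_neg k5, map_zero, ite_self, zero_add]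

lemma ham_dbl0 [NeZero L] (h : BoxOp d R) : ham (dbl0 h) L = dbl0 (ham h L) := by
  classical
  unfold ham
  simp only [term_dbl0]
  ext s t
  rw [Matrix.sum_apply]
  unfold dbl0 H2
  simp only [Matrix.submatrix_apply]
  rw [Finset.sum_add_distrib]
  congr 1
  · split_ifs
    · rw [Matrix.sum_apply]
    · simp
  · split_ifs
    · rw [Matrix.sum_apply, map_sum]
    · simp

/-- the double of an interaction: `h ⊗ 1 + 1 ⊗ h̄`, in a local basis in which it is real -/
noncomputable def dbl (h : BoxOp d R) : BoxOp (d * d) R :=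
  (tp fun _ : Fin R × Fin R => WM d)ᴴ * dbl0 h * (tp fun _ : Fin R × Fin R => WM d)

lemma tpSW {V : Type*} [Fintype V] [DecidableEq V] (s t : V → Fin (d * d)) :
    tp (fun _ : V => SW d) s t = if t = (fun v => swp (s v)) then 1 else 0 := by
  classical
  unfold tp SW
  split_ifs with h
  · subst h
    simp
  · obtain ⟨v, hv⟩ := Function.ne_iff.1 h
    exact Finset.prod_eq_zero (mem_univ v) (if_neg hv)

lemma swp_fun {V : Type*} (s : V → Fin (d * d)) :
    (fun v => swp ((fun v => swp (s v)) v)) = s := by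
  funext v
  exact swp_swp _

lemma dbl0_map {V : Type*} [Fintype V] [DecidableEq V] (h : Matrix (V → Fin d) (V → Fin d) ℂ) :
    (dbl0 h).map (starRingEnd ℂ) =
      tp (fun _ : V => SW d) * dbl0 h * tp (fun _ : V => SW d) := by
  classical
  ext s t
  rw [Matrix.mul_apply]
  have h1 : ∀ j, (tp (fun _ : V => SW d) * dbl0 h) s j = dbl0 h (fun v => swp (s v)) j := by
    intro j
    rw [Matrix.mul_apply]
    simp [tpSW]
  simp only [h1, tpSW]
  have h2 : ∀ j : V → Fin (d * d), (t = fun v => swp (j v)) ↔ (j = fun v => swp (t v)) := by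
    intro j
    constructor
    · intro hh
      rw [hh]
      funext v
      rw [swp_swp]
    · intro hh
      rw [hh]
      funext v
      rw [swp_swp]
  simp only [h2, mul_ite, mul_one, mul_zero]
  rw [Finset.sum_ite_eq']
  simp only [mem_univ, if_true]
  rw [Matrix.map_apply]
  unfold dbl0 H2 pairE
  simp only [Matrix.submatrix_apply, Equiv.coe_fn_symm_mk, p1_swp, p2_swp]
  rw [map_add, add_comm]
  congr 1
  · by_cases hh : (fun x => p1 (s x)) = fun x => p1 (t x)
    · rw [if_pos hh, if_pos hh, Complex.conj_conj]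
    · rw [if_neg hh, if_neg hh, map_zero]
  · by_cases hh : (fun x => p2 (s x)) = fun x => p2 (t x)
    · rw [if_pos hh, if_pos hh]
    · rw [if_neg hh, if_neg hh, map_zero]

lemma map_mul' {m : Type*} [Fintype m] [DecidableEq m] (A B : Matrix m m ℂ) :
    (A * B).map (starRingEnd ℂ) = A.map (starRingEnd ℂ) * B.map (starRingEnd ℂ) :=
  Matrix.map_mul

/-- The double has real entries. -/
theorem dbl_real (h : BoxOp d R) (p q : Fin R × Fin R → Fin (d * d)) : (dbl h p q).im = 0 := by
  have key : (dbl h).map (starRingEnd ℂ) = dbl h := by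
    have e1 : ((tp fun _ : Fin R × Fin R => WM d)ᴴ).map (starRingEnd ℂ) =
        (tp fun _ : Fin R × Fin R => WM d)ᴴ * tp (fun _ : Fin R × Fin R => SW d) := by
      rw [tp_conjT, tp_map, tp_mul]
      congr 1
      funext _
      have : ((WM d)ᴴ).map (starRingEnd ℂ) = ((WM d).map (starRingEnd ℂ))ᴴ := by
        ext i j
        simp [Matrix.conjTranspose_apply]
      rw [this, WM_conj, Matrix.conjTranspose_mul, SW_herm]
    have e2 : ((tp fun _ : Fin R × Fin R => WM d)).map (starRingEnd ℂ) =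
        tp (fun _ : Fin R × Fin R => SW d) * (tp fun _ : Fin R × Fin R => WM d) := by
      rw [tp_map, tp_mul]
      congr 1
      funext _
      exact WM_conj
    have e3 : tp (fun _ : Fin R × Fin R => SW d) * tp (fun _ : Fin R × Fin R => SW d) = 1 := by
      rw [tp_mul]
      simp only [SW_sq]
      exact tp_one
    unfold dbl
    rw [map_mul', map_mul', e1, e2, dbl0_map]
    simp only [← mul_assoc]
    rw [mul_assoc _ (tp fun _ : Fin R × Fin R => SW d) (tp fun _ : Fin R × Fin R => SW d), e3,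
      mul_one, mul_assoc _ (tp fun _ : Fin R × Fin R => SW d) (tp fun _ : Fin R × Fin R => SW d),
      e3, mul_one]
  have h1 := congrFun (congrFun key p) q
  rw [Matrix.map_apply] at h1
  exact Complex.conj_eq_iff_im.1 h1

lemma dbl0_herm {V : Type*} [Fintype V] [DecidableEq V] {h : Matrix (V → Fin d) (V → Fin d) ℂ}
    (hh : h.IsHermitian) : (dbl0 h).IsHermitian := (H2_herm h hh).submatrix _

lemma dbl_herm {h : BoxOp d R} (hh : h.IsHermitian) : (dbl h).IsHermitian := by
  unfold dbl
  exact Matrix.isHermitian_conjTranspose_mul_mul _ (dbl0_herm hh)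

/-- the vector `Ψ ⊗ Ψ̄` in the local basis of the double -/
noncomputable def dblV [NeZero L] (Ψ : (Site L → Fin d) → ℂ) : (Site L → Fin (d * d)) → ℂ :=
  (tp fun _ : Site L => WM d)ᴴ *ᵥ stack Ψ fun s => (starRingEnd ℂ) (Ψ s)

lemma unit_nr {m : Type*} [Fintype m] [DecidableEq m] {U : Matrix m m ℂ} (hU : Uᴴ * U = 1)
    (x : m → ℂ) : nr (U *ᵥ x) = nr x := by
  have h1 : ip (U *ᵥ x) (U *ᵥ x) = ip x x := by
    have h2 : ∀ y : m → ℂ, ip (U *ᵥ x) y = ip x (Uᴴ *ᵥ y) := by
      intro y
      unfold ip Matrix.mulVec dotProduct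
      simp only [map_sum, Finset.mul_sum, Finset.sum_mul]
      rw [Finset.sum_comm]
      refine Finset.sum_congr rfl fun j _ => Finset.sum_congr rfl fun i _ => ?_
      rw [map_mul, Matrix.conjTranspose_apply, starRingEnd_apply, starRingEnd_apply]
      ring
    rw [h2, Matrix.mulVec_mulVec, hU, Matrix.one_mulVec]
  rw [ip_self', ip_self'] at h1
  have h3 : normSq (U *ᵥ x) = normSq x := by exact_mod_cast h1
  rw [← nr_sq, ← nr_sq] at h3
  exact (pow_left_inj₀ (nr_nonneg _) (nr_nonneg _) two_ne_zero).1 h3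

lemma WT_unit [NeZero L] : (tp fun _ : Site L => WM d)ᴴ * (tp fun _ : Site L => WM d) = 1 :=
  tp_unit _ WM_unit

lemma WT_unit' [NeZero L] : (tp fun _ : Site L => WM d) * (tp fun _ : Site L => WM d)ᴴ = 1 :=
  mul_eq_one_comm.1 WT_unit

lemma stack_eq (Ψ : (Site L → Fin d) → ℂ) :
    stack Ψ (fun s => (starRingEnd ℂ) (Ψ s)) = dv Ψ ∘ (pairE (Site L) d d).symm := rfl

lemma dblV_norm [NeZero L] (Ψ : (Site L → Fin d) → ℂ) (hΨ : normSq Ψ = 1) :
    normSq (dblV Ψ) = 1 := by
  unfold dblV
  rw [← nr_sq, unit_nr (by rw [Matrix.conjTranspose_conjTranspose]; exact WT_unit'), nr_sq,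
    normSq_stack, hΨ, normSq_conj, hΨ, one_mul]

/-- **The ground states of the double.** -/
theorem dbl_gap [NeZero L] (hRL : R ≤ L) (h : BoxOp d R) (hh : h.IsHermitian) (Δ : ℝ) (hΔ : 0 < Δ)
    (Ψ : (Site L → Fin d) → ℂ) (hΨ : normSq Ψ = 1) (hgr : IsGappedGround (ham h L) Δ Ψ) :
    IsGappedGround (ham (dbl h) L) Δ (dblV Ψ) := by
  have h1 := double_gap (ham h L) (ham_herm h hh) Δ hΔ Ψ hΨ hgr
  set e := pairE (Site L) d d with he
  set U : TorOp (d * d) L := (tp fun _ : Site L => WM d) with hU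
  let F : ((Site L → Fin d) × (Site L → Fin d) → ℂ) ≃ₗ[ℂ] ((Site L → Fin (d * d)) → ℂ) :=
    { toFun := fun φ => Uᴴ *ᵥ (φ ∘ e.symm)
      map_add' := fun φ φ' => by
        have : (φ + φ') ∘ e.symm = φ ∘ e.symm + φ' ∘ e.symm := rfl
        rw [this, Matrix.mulVec_add]
      map_smul' := fun c φ => by
        have : (c • φ) ∘ e.symm = c • (φ ∘ e.symm) := rfl
        rw [this, Matrix.mulVec_smul]
        rfl
      invFun := fun y => (U *ᵥ y) ∘ e
      left_inv := fun φ => by
        beta_reduce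
        rw [Matrix.mulVec_mulVec, WT_unit', Matrix.one_mulVec, Function.comp_assoc]
        simp
      right_inv := fun y => by
        beta_reduce
        rw [Function.comp_assoc]
        simp only [Equiv.self_comp_symm, Function.comp_id]
        rw [Matrix.mulVec_mulVec, WT_unit, Matrix.one_mulVec] }
  have hF : ∀ φ, F φ = Uᴴ *ᵥ (φ ∘ e.symm) := fun φ => rfl
  have hham : ham (dbl h) L = Uᴴ * (H2 (ham h L)).submatrix e.symm e.symm * U := by
    unfold dbl
    rw [ham_conj hRL (WM d) WM_unit, ham_dbl0]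
    rfl
  have h2 := gg_transport (H2 := ham (dbl h) L) F (by
    intro φ
    rw [hF, hF, hham]
    rw [Matrix.mulVec_mulVec, mul_assoc, WT_unit', mul_one, ← Matrix.mulVec_mulVec]
    congr 1
    rw [Matrix.submatrix_mulVec_equiv]
    congr 1
    simp [Function.comp_assoc]) h1
  exact h2

end dbl

end Pool.Agent.U753.PE
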